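import Pool.Agent.H96.PZ.Stmts2
import Pool.Agent.H75.S6C.Th
import Pool.Agent.H42.S6C.Row
import Pool.Agent.H5.K2.Exh

/-!
# The plank zoom: fullness in closed labels at a fixed window, base form (row FVB)
-/

set_option autoImplicit false

namespace Pool.PZ

open Finset Real
open Pool.Agent.H49.Ent Pool.Agent.H32.Dense Pool.STK Pool.KA Pool.KSAT Pool.K2S Pool.PB Pool.KS6
open Pool.ZCL Pool.S6C

/-- The property: the rows are full given each closed label at the window `w`. -/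
def FullL (p w : ℝ) (L : ℝ) : Stat 3 := fun J F A => ∀ (Λ : Type) (y : F.Ω → Λ),
  (∃ φ : (Fin 3 → ℤ) × (ℕ × F.ζ) → Λ, ∀ ω, A ω → y ω = φ (Fam.pt F ω)) →
  (∃ ψ : ((Fin 3 → ℝ) × (Fin 3 → ℝ)) × F.ζ × ℕ → Λ, ∀ ω, A ω →
    y ω = ψ (slam F ⌊w * J⌋₊ ω)) →
  L * J * Real.log 2 ≤
    CH (Pool.Agent.H49.Ent.cond F.p A True) (F.X ⌊p * J⌋₊) (fun ω => (y ω, F.W ω))

/-- From stable events to all events, by exhaustion. -/
theorem full_base {S : PCl 3} (hpos : ∀ (τ : ℝ) (J : ℕ) (F : Fam 3 J) (A : F.Ω → Prop),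
    S.St τ J F A → 0 < Pe F.p A) {p w L L' : ℝ} (h : Clp S (FullL p w L)) (hL2 : L ≤ 2)
    (hL : L' < L) : Bas S (FullL p w L') := by
  obtain ⟨η, hη⟩ : ∃ η, η = min 1 ((L - L') / 2) := ⟨_, rfl⟩
  have hη0 : 0 < η := by rw [hη]; exact lt_min one_pos (by linarith)
  have hη1 : η ≤ (L - L') / 2 := by rw [hη]; exact min_le_right _ _
  obtain ⟨c, hc, J₁, hwin⟩ := h.win 1 one_pos
  obtain ⟨J₂, hJ₂⟩ := exists_nat_gt (-Real.log η / (c / 2))
  refine ⟨c / 2, half_pos hc, max J₁ J₂, fun J hJ F A hA Λ y hy₁ hy₂ => ?_⟩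
  have hPA := hpos _ _ _ _ hA
  have hJ0 : (0 : ℝ) ≤ J := Nat.cast_nonneg J
  have hl2 : 0 < Real.log 2 := Real.log_pos (by norm_num)
  have hJe : Real.exp (-(c / 2 * J)) ≤ η := by
    rw [← Real.exp_log hη0]
    refine Real.exp_le_exp.2 ?_
    have h1 : (J₂ : ℝ) ≤ J := by exact_mod_cast (le_max_right _ _).trans hJ
    rw [div_lt_iff₀ (by positivity)] at hJ₂
    have h2 : (J₂ : ℝ) * (c / 2) ≤ J * (c / 2) := mul_le_mul_of_nonneg_right h1 (by positivity)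
    linarith
  have hq := cond_nonneg F.isLaw.nonneg A True
  by_cases hneg : L' ≤ 0
  · refine le_trans ?_ (CH_nonneg hq _ _)
    rw [mul_assoc]
    exact mul_nonpos_of_nonpos_of_nonneg hneg (by positivity)
  push Not at hneg
  have hL0 : 0 < L := by linarith
  have key := Pool.K2S.exhaust F.isLaw hPA (F.X ⌊p * J⌋₊) (fun ω => (y ω, F.W ω)) hη0
    (h := L * J * Real.log 2) (by positivity) (by
      intro B hB hPB
      have hSB : S.St c J F B := by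
        have h1 := S.res (half_pos hc).le hA hB ((mul_le_mul_of_nonneg_right hJe hPA.le).trans hPB)
        refine S.mono ?_ h1
        linarith
      obtain ⟨B', hB', hPB', hΦ⟩ := hwin J ((le_max_left _ _).trans hJ) F B hSB
      have hPB0 : 0 < Pe F.p B := hpos _ _ _ _ hSB
      refine ⟨B', hB', lt_of_lt_of_le (by positivity) hPB', ?_⟩
      obtain ⟨φ, hφ⟩ := hy₁
      obtain ⟨ψ, hψ⟩ := hy₂
      exact hΦ Λ y ⟨φ, fun ω hω => hφ ω (hB _ (hB' _ hω))⟩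
        ⟨ψ, fun ω hω => hψ ω (hB _ (hB' _ hω))⟩)
  refine le_trans ?_ key
  have h1 : η * L ≤ L - L' := by
    have h2 : η * L ≤ η * 2 := mul_le_mul_of_nonneg_left hL2 hη0.le
    linarith
  have h2 : (1 - η) * (L * J * Real.log 2) = (L - η * L) * (J * Real.log 2) := by ring
  rw [h2, mul_assoc]
  exact mul_le_mul_of_nonneg_right (by linarith) (by positivity)

/-- **(FVB)** Fullness of the rows in closed labels at a fixed window, base form, in a class with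
activity. -/
def FVB2Stmt : Prop :=
  ∀ (S : PCl 3) (a R h₁ : ℝ) (i₀ : Fin 3) (c s₂ : ℝ) (r : ℝ → ℝ) (D : Set ℝ) (σ : ℝ → Row),
    Cs S a R h₁ i₀ c s₂ r D σ → ∀ (act : ℚ → ℝ) (κ : ℝ), ActD S i₀ act κ →
    ∀ p : ℝ, 0 < p → p < 1 → ∀ w w' : ℚ, 0 < w → w < w' → (w' : ℝ) < 1 →
    (w' : ℝ) + (σ 1).rot w' < p → (σ 1).rot w' < (σ 1).pi → p < (σ 1).th w → ∀ h : ℝ, 0 < h →
    (w' : ℝ) - w ≤ h → (σ 1).rot w' - (σ 1).rot w ≤ h →
    Bas S (fun J F A => ∀ (Λ : Type) (y : F.Ω → Λ),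
      (∃ φ : (Fin 3 → ℤ) × (ℕ × F.ζ) → Λ, ∀ ω, A ω → y ω = φ (Fam.pt F ω)) →
      (∃ ψ : ((Fin 3 → ℝ) × (Fin 3 → ℝ)) × F.ζ × ℕ → Λ, ∀ ω, A ω →
        y ω = ψ (slam F ⌊(w : ℝ) * J⌋₊ ω)) →
      (2 * p - 2 * w - (σ 1).rot w - 6 * h) * J * Real.log 2 ≤
        CH (Pool.Agent.H49.Ent.cond F.p A True) (F.X ⌊p * J⌋₊) (fun ω => (y ω, F.W ω)))

/-- **Row FVB.** -/
theorem fvb_thm (hUV : UVStmt) : FVB2Stmt := by
  intro S a R h₁ i₀ c s₂ r D σ hC act κ hact p hp0 hp1 w w' hw hww hw'1' hwp hrot hth h hh hwh hrh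
  have hw'1 : w' ≤ 1 := by exact_mod_cast hw'1'.le
  have hS := hC.ne
  have hR := hC.row 1 one_pos le_rfl hC.D1
  have hpos : ∀ (τ : ℝ) (J : ℕ) (F : Fam 3 J) (A : F.Ω → Prop), S.St τ J F A →
      0 < Pe F.p A := fun τ J F A hA =>
    lt_of_lt_of_le (Real.exp_pos _) (hC.st _ _ _ _ hA).2.2.2
  obtain ⟨v, k, hwv, hvw', hk0, hkh, hcl⟩ := hUV S a R h₁ i₀ c s₂ r D σ hC act κ hact p hp0 hp1 w
    w' hw hww hw'1' hwp hrot hth h hh
  have hv0 : 0 < v := hw.trans hwv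
  have hv1 : v ≤ 1 := hvw'.le.trans hw'1
  have hv0' : (0 : ℝ) < v := by exact_mod_cast hv0
  have hv1' : (v : ℝ) ≤ 1 := by exact_mod_cast hv1
  have hw0' : (0 : ℝ) < w := by exact_mod_cast hw
  have hwv' : (w : ℝ) < v := by exact_mod_cast hwv
  have hvw'' : (v : ℝ) < w' := by exact_mod_cast hvw'
  have hrv := hR.rot_mono hS hv0.le hvw'.le hw'1
  have hrw := hR.rot_mono hS hw.le hwv.le hv1
  have hrn := hR.rot_nn hS hw.le (hwv.le.trans hv1)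
  have hthv := th_mono hS hC.st le_rfl hR w v hw.le hwv.le hv1'
  have hg := glu hC (Q := 1) le_rfl hR v hv0.le hv1 (v := (σ 1).rot v - k) (s := p)
    (by linarith) (by linarith) (by linarith) hp0 hp1.le
  have hfull : Clp S (FullL p w (2 * p - 2 * w - (σ 1).rot w - 4 * h)) := by
    refine Clp.mono (J₂ := 0) (hcl.and hg) ?_
    rintro J - F A ⟨h1, iu, iN, hi, z, hz1, hz2, hz3⟩ Λ y ⟨φ, hφ⟩ ⟨ψ, hψ⟩
    have hJ0 : (0 : ℝ) ≤ J := Nat.cast_nonneg J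
    have hl2 : 0 < Real.log 2 := Real.log_pos (by norm_num)
    have e1 : ⌊(1 : ℝ) * J⌋₊ = J := by rw [one_mul, Nat.floor_natCast]
    rw [e1] at hz2
    obtain ⟨φz, hφz⟩ := hz2
    obtain ⟨ψz, hψz⟩ := hz3
    have f1 : ⌊(w : ℝ) * J⌋₊ ≤ ⌊(v : ℝ) * J⌋₊ :=
      Nat.floor_le_floor (mul_le_mul_of_nonneg_right hwv'.le hJ0)
    have f2 : ⌊(v : ℝ) * J⌋₊ ≤ J := by
      refine Nat.floor_le_of_le ?_
      calc (v : ℝ) * J ≤ 1 * J := mul_le_mul_of_nonneg_right hv1' hJ0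
        _ = J := one_mul _
    have h2 := h1 iu iN hi (Λ × Pln) (fun ω => (y ω, z ω)) Prod.snd hz1
      ⟨fun u => (φ u, φz u), fun ω hω => Prod.ext (hφ ω hω) (hφz ω hω)⟩
      ⟨fun s => (ψ (s.1, s.2.1, s.2.2 / 2 ^ (⌊(v : ℝ) * J⌋₊ - ⌊(w : ℝ) * J⌋₊)), ψz s),
        fun ω hω => Prod.ext (by
          change y ω = _
          rw [hψ ω hω, Pool.PB.slam_coarse F f1 f2 ω]) (hψz ω hω)⟩
    have h3 : CH (Pool.Agent.H49.Ent.cond F.p A True) (F.X ⌊p * J⌋₊)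
        (fun ω => ((y ω, z ω), F.W ω)) ≤
        CH (Pool.Agent.H49.Ent.cond F.p A True) (F.X ⌊p * J⌋₊) (fun ω => (y ω, F.W ω)) := by
      refine CH_mono_cond (cond_nonneg F.isLaw.nonneg A True) fun ω ω' _ _ e => ?_
      have e2 := Prod.ext_iff.mp e
      have e3 := Prod.ext_iff.mp e2.1
      exact Prod.ext e3.1 e2.2
    refine le_trans ?_ (h2.trans h3)
    rw [mul_assoc, mul_assoc]
    refine mul_le_mul_of_nonneg_right ?_ (by positivity)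
    linarith
  have hb := full_base hpos hfull (L' := 2 * p - 2 * w - (σ 1).rot w - 6 * h) (by linarith)
    (by linarith)
  exact hb

end Pool.PZ
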